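import Pool.Agent.H31.Sok

open Pool.Agent.H31.Sok

universe v

theorem Pool.Agent.Results.MP_e3da0c_gt.Neg.result :
    ∃ (T : Type) (_ : TopologicalSpace T), T35Space T ∧ PrimL.{0, 0} T ∧ MSokW T ∧
      ∀ (Γ : Type v) (F : Set (ℕ → L Γ)) (f : F → T), IsClosed F → ¬ RQuot f :=
  main1
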